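import Pool.Agent.Lib_helper40.MC.T9.Dat

/-!
# N = 9, special: the trivial relations
-/

set_option autoImplicit false
set_option maxRecDepth 100000

namespace Pool.Agent.MC9

open Pool.Agent.KC72 Pool.Agent.MC

theorem c9_t0 : blk (cT c9 c9_t) c9.T 40 0 = true := by decide +kernel

theorem c9_t1 : blk (cT c9 c9_t) c9.T 40 1 = true := by decide +kernel

theorem c9_t2 : blk (cT c9 c9_t) c9.T 40 2 = true := by decide +kernel

theorem c9_t3 : blk (cT c9 c9_t) c9.T 40 3 = true := by decide +kernel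

theorem c9_t' : ∀ k < 4, blk (cT c9 c9_t) c9.T 40 k = true
  | 0, _ => c9_t0
  | 1, _ => c9_t1
  | 2, _ => c9_t2
  | 3, _ => c9_t3
  | k + 4, h => absurd h (by omega)

end Pool.Agent.MC9
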