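import Pool.Agent.Lib_helper40.MC.T9.Q
import Pool.Agent.Lib_helper40.MC.T9.T

/-!
# N = 9, special: all checks
-/

set_option autoImplicit false
set_option maxRecDepth 100000

namespace Pool.Agent.MC9

open Pool.Agent.KC72 Pool.Agent.MC

theorem c9_0 : NumX c9 c9_t c9_ll.length := by decide +kernel

theorem c9_om : xm c9.kb c9.ko (c9.m * c9.N) c9.Om = true := by decide +kernel

theorem c9_b : cB c9 = true := by decide +kernel

theorem c9_r0 : blk (cR c9) c9.rels 60 0 = true := by decide +kernel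

theorem c9_r1 : blk (cR c9) c9.rels 60 1 = true := by decide +kernel

theorem c9_r2 : blk (cR c9) c9.rels 60 2 = true := by decide +kernel

theorem c9_r3 : blk (cR c9) c9.rels 60 3 = true := by decide +kernel

theorem c9_r' : ∀ k < 4, blk (cR c9) c9.rels 60 k = true
  | 0, _ => c9_r0
  | 1, _ => c9_r1
  | 2, _ => c9_r2
  | 3, _ => c9_r3
  | k + 4, h => absurd h (by omega)

theorem c9_g : allI (fun c g => cG c9.DG c9_t.B c9_t.MA c9_t.P2 c9_t.MB c g) c9.G 0 = true := by decide +kernel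

theorem c9_g' : c9.toCert.chk3' = true := by decide +kernel

theorem c9_k1 : (c9.cls.take c9.m).map (prF c9_t.p c9.n c9.r) = c9_t.PR := by decide +kernel

theorem c9_k2 : (c9.cls.take c9.m).map (pkw (Int.ofNat c9_t.Z) (Int.ofNat (Nat.pow c9_t.Z c9.n)) c9.r) = c9_t.PM := by decide +kernel

theorem c9_k3 : c9_t.P2.map (fun x => pmb (Int.ofNat c9_t.B) x.1 x.2 (c9.cls.take c9.m)) = c9_t.MB := by decide +kernel

theorem c9_e : c9.cls.all (fun e => bdE c9_t.MA c9.n e.1.2 && bdE c9_t.MA c9.n e.2.2) = true := by decide +kernel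

theorem c9_xq : c9_t.XQ.all (fun X => X.all (xm c9_t.a c9_t.d c9_t.S)) = true := by decide +kernel

theorem c9_xt : c9_t.XT.all (fun X => X.all (xm c9_t.a' c9_t.d' c9_t.K)) = true := by decide +kernel

theorem c9_d0_0 : blk (cD c9 c9_v0) c9.Q 40 0 = true := by decide +kernel

theorem c9_d0_1 : blk (cD c9 c9_v0) c9.Q 40 1 = true := by decide +kernel

theorem c9_d0_2 : blk (cD c9 c9_v0) c9.Q 40 2 = true := by decide +kernel

theorem c9_d0_' : ∀ k < 3, blk (cD c9 c9_v0) c9.Q 40 k = true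
  | 0, _ => c9_d0_0
  | 1, _ => c9_d0_1
  | 2, _ => c9_d0_2
  | k + 3, h => absurd h (by omega)

theorem c9_x : allI (fun s L => cL c9 c9_t (c9_vl.getD s []) s L) c9_ll 0 = true := by decide +kernel

/-- all checks -/
theorem c9_ok : ROkX c9 c9_ll :=
  rOkX_of (A := c9_t) (VL := c9_vl) (l4 := 60) (n4 := 4) (lQ := 40) (nQ := 3) (lT := 40) (nT := 4) rfl c9_0 c9_om c9_b
    (by decide) (by decide +kernel) c9_r' c9_g c9_g' ⟨c9_k1, c9_k2, c9_k3⟩ c9_e c9_xq c9_xt (by decide) (by decide +kernel) c9_q'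
    (by decide) (by decide +kernel) c9_t' c9_x
    (List.forall_mem_cons.2 ⟨c9_d0_', (List.forall_mem_nil _)⟩)

end Pool.Agent.MC9
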