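import Pool.Agent.Lib_helper40.MC.P2
import Pool.Agent.Lib_helper40.MC.T9.Ok
import Pool.Agent.Lib_helper54.FAM.C9

/-!
# The classes of the certificate `c9` are those of the list `c9_cls`
-/

set_option autoImplicit false
set_option maxRecDepth 100000

namespace Pool.Agent.MC9

open Pool.Agent.MC

/-- positions -/
def ia : List ℕ := [35, 31, 38, 39, 33, 36, 46, 40, 41, 48, 49, 45, 9, 70, 171, 76, 86, 102, 66, 87, 80, 6, 15,
  59, 28, 27, 205, 32, 206, 207, 208, 34, 204, 30, 37, 215, 43, 214, 217, 216, 47, 218, 42, 44,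
  23, 111, 156, 201, 55, 20, 89, 116, 213, 161, 119, 101, 146, 105, 130, 10, 21, 26, 129, 157,
  73, 71, 137, 88, 199, 212, 19, 141, 52, 210, 8, 142, 103, 134, 115, 172, 166, 178, 7, 58, 131,
  150, 51, 164, 83, 62, 176, 81, 107, 120, 96, 126, 5, 187, 123, 54, 64, 163, 117, 175, 138,
  179, 189, 3, 18, 114, 133, 109, 65, 53, 183, 95, 4, 140, 151, 180, 94, 91, 93, 14, 50, 68,
  13, 104, 61, 75, 57, 162, 182, 132, 56, 168, 185, 24, 127, 160, 77, 181, 143, 97, 110, 128,
  148, 194, 0, 2, 63, 69, 173, 11, 60, 167, 12, 67, 16, 78, 135, 79, 22, 196, 29, 170, 112, 136,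
  145, 1, 82, 84, 197, 125, 177, 144, 108, 155, 85, 153, 122, 165, 17, 121, 113, 193, 139, 152,
  184, 154, 25, 98, 169, 191, 74, 202, 188, 149, 72, 190, 192, 186, 100, 158, 147, 203, 195,
  198, 99, 106, 90, 211, 174, 124, 92, 209, 118, 200, 159]

/-- positions -/
def ib : List ℕ := [148, 169, 149, 107, 116, 96, 21, 82, 74, 12, 59, 153, 156, 126, 123, 22, 158, 182, 108, 70,
  49, 60, 162, 44, 137, 190, 61, 25, 24, 164, 33, 1, 27, 4, 31, 0, 5, 34, 2, 3, 7, 8, 42, 36,
  43, 11, 6, 40, 9, 10, 124, 86, 72, 113, 99, 48, 134, 130, 83, 23, 154, 128, 89, 150, 100, 112,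
  18, 157, 125, 151, 13, 65, 198, 64, 194, 129, 15, 140, 159, 161, 20, 91, 170, 88, 171, 178,
  16, 19, 67, 50, 210, 121, 214, 122, 120, 115, 94, 143, 191, 208, 202, 55, 17, 76, 127, 57,
  209, 92, 176, 111, 144, 45, 166, 184, 109, 78, 51, 102, 216, 54, 93, 183, 180, 98, 213, 173,
  95, 138, 145, 62, 58, 84, 133, 110, 77, 160, 167, 66, 104, 186, 117, 71, 75, 142, 175, 168,
  56, 204, 146, 197, 85, 118, 187, 179, 189, 177, 46, 63, 203, 218, 139, 53, 131, 101, 87, 181,
  80, 155, 135, 192, 165, 14, 79, 152, 212, 103, 90, 174, 81, 105, 119, 141, 132, 114, 188, 136,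
  201, 97, 196, 106, 199, 193, 200, 185, 147, 206, 163, 172, 207, 68, 217, 47, 195, 205, 32,
  26, 28, 29, 30, 215, 73, 211, 69, 52, 37, 35, 39, 38, 41]

/-- **the same classes** -/
theorem same : sameC c9.cls N9C.c9_cls = true :=
  sameC_of_pos (a := ia) (b := ib) (by decide +kernel) (by decide +kernel)

end Pool.Agent.MC9
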