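import Pool.Agent.Lib_helper40.MC.T9.Dat

/-!
# N = 9, special: the coordinates
-/

set_option autoImplicit false
set_option maxRecDepth 100000

namespace Pool.Agent.MC9

open Pool.Agent.KC72 Pool.Agent.MC

theorem c9_q0 : blk (cQ c9 c9_t) c9.Q 40 0 = true := by decide +kernel

theorem c9_q1 : blk (cQ c9 c9_t) c9.Q 40 1 = true := by decide +kernel

theorem c9_q2 : blk (cQ c9 c9_t) c9.Q 40 2 = true := by decide +kernel

theorem c9_q' : ∀ k < 3, blk (cQ c9 c9_t) c9.Q 40 k = true
  | 0, _ => c9_q0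
  | 1, _ => c9_q1
  | 2, _ => c9_q2
  | k + 3, h => absurd h (by omega)

end Pool.Agent.MC9
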